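import Pool.Agent.H77.EA.Targets
import Pool.Agent.H25.AM.D4
import Pool.Agent.H77.AM.F4
import Pool.Agent.H88.AM.FC

/-!
# MP_657073_al, module DX: defect groups of the blocks above an invariant block
-/

open scoped Classical ComplexConjugate

namespace Pool.Agent.H76.EA

open AMc AMe

section grp

variable {Γ : Type} [Group Γ] [Finite Γ] {ℓ : ℕ} [Fact ℓ.Prime]

/-- extension of an `ℓ`-subgroup of `C` to a Sylow subgroup of `C` -/
theorem ext_sylow {A C : Subgroup Γ} (hA : IsPGroup ℓ A) (hAC : A ≤ C) :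
    ∃ E : Subgroup Γ, A ≤ E ∧ E ≤ C ∧ IsPGroup ℓ E ∧ ¬ ℓ ∣ E.relIndex C := by
  have hAp : IsPGroup ℓ (A.subgroupOf C) := hA.comap_of_injective _ Subtype.val_injective
  obtain ⟨T, hT⟩ := hAp.exists_le_sylow
  refine ⟨(T : Subgroup C).map C.subtype, ?_, ?_, T.2.map _, ?_⟩
  · intro a ha
    exact ⟨⟨a, hAC ha⟩, hT (Subgroup.mem_subgroupOf.2 ha), rfl⟩
  · rintro _ ⟨a, _, rfl⟩
    exact a.2
  · have h1 : ((T : Subgroup C).map C.subtype).relIndex C = (T : Subgroup C).index := by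
      unfold Subgroup.relIndex
      congr 1
      ext g
      rw [Subgroup.mem_subgroupOf]
      constructor
      · rintro ⟨a, ha, h⟩
        have : a = g := Subtype.ext h
        rwa [← this]
      · intro h
        exact ⟨g, h, rfl⟩
    rw [h1]
    exact T.not_dvd_index

theorem card_le_sylow {A B C : Subgroup Γ} (hA : IsPGroup ℓ A) (hAC : A ≤ C)
    (hB : IsPGroup ℓ B) (hBC : B ≤ C) (hi : ¬ ℓ ∣ B.relIndex C) : Nat.card A ≤ Nat.card B := by
  obtain ⟨E, hAE, hEC, hE, hEi⟩ := ext_sylow hA hAC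
  obtain ⟨c, _, h⟩ := H25.AM.sylow_conj hB hE hBC hEC hi hEi
  rw [← H25.AM.card_map_conj B c, h]
  exact Nat.card_le_card_of_injective _ (Subgroup.inclusion_injective hAE)

theorem eq_of_sylow_le {A B C : Subgroup Γ} (hA : IsPGroup ℓ A) (hAC : A ≤ C)
    (hB : IsPGroup ℓ B) (hBA : B ≤ A) (hi : ¬ ℓ ∣ B.relIndex C) : A = B := by
  have h1 := card_le_sylow hA hAC hB (hBA.trans hAC) hi
  exact (Subgroup.eq_of_le_of_card_ge hBA h1).symm

/-- a subgroup of `C` with the order of a Sylow subgroup is conjugate to it -/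
theorem conj_of_card {A B C : Subgroup Γ} (hA : IsPGroup ℓ A) (hAC : A ≤ C)
    (hB : IsPGroup ℓ B) (hBC : B ≤ C) (hi : ¬ ℓ ∣ B.relIndex C)
    (hc : Nat.card B ≤ Nat.card A) :
    ∃ c ∈ C, A.map (MulAut.conj c).toMonoidHom = B := by
  have h1 : Nat.card A = Nat.card B := le_antisymm (card_le_sylow hA hAC hB hBC hi) hc
  refine H25.AM.sylow_conj hA hB hAC hBC ?_ hi
  rw [H25.AM.relIndex_eq_of_card hAC hBC h1 rfl]
  exact hi

end grp

theorem relIndex_PI {Γ : Type} [Group Γ] [Finite Γ] {q : ℕ} (hq : q.Prime) {Q : Type}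
    [CommGroup Q] {s : Γ →* Q} {X K : Subgroup Γ} {t : Γ} (h : PI q s X K t) {C : Subgroup Γ}
    (hC : C ≤ X) : K.relIndex C = 1 ∨ K.relIndex C = q := by
  have h1 : K.relIndex C = Nat.card (C.map s) := by
    rw [← Subgroup.relIndex_ker]
    have h2 : (K ⊓ C : Subgroup Γ) = s.ker ⊓ C := by
      rw [h.eq]
      ext g
      simp only [Subgroup.mem_inf]
      constructor
      · rintro ⟨⟨_, h2⟩, h3⟩
        exact ⟨h2, h3⟩
      · rintro ⟨h2, h3⟩
        exact ⟨⟨hC h3, h2⟩, h3⟩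
    rw [← Subgroup.inf_relIndex_right K C, h2, Subgroup.inf_relIndex_right]
  have h2 : C.map s ≤ Subgroup.zpowers (s t) := by
    rintro _ ⟨x, hx, rfl⟩
    obtain ⟨c, hc⟩ := h.gen x (hC hx)
    rw [hc]
    exact Subgroup.pow_mem _ (Subgroup.mem_zpowers _) c
  have h3 : Nat.card (C.map s) ∣ q := by
    have := Subgroup.card_dvd_of_le h2
    rwa [Nat.card_zpowers, h.ord] at this
  rw [h1]
  exact (Nat.dvd_prime hq).1 h3

theorem map_conj_le {Γ : Type} [Group Γ] {P X : Subgroup Γ} {u y : Γ} (hu : u ∈ X) (hP : P ≤ X)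
    (h : ∀ d ∈ P, u * d * u⁻¹ ∈ Subgroup.centralizer {y}) :
    P.map (MulAut.conj u).toMonoidHom ≤ Subgroup.centralizer {y} ⊓ X := by
  rintro _ ⟨d, hd, rfl⟩
  simp only [MulEquiv.coe_toMonoidHom, MulAut.conj_apply]
  exact ⟨h d hd, X.mul_mem (X.mul_mem hu (hP hd)) (X.inv_mem hu)⟩

theorem dx (hP0 : T_P0) (hSP : T_SP) (hB1 : T_B1) (hB4 : T_B4) (hC3 : T_C3) (hC4 : T_C4)
    (hF0 : T_F0) : T_DX := by
  intro F _ π hπ ℓ _ _ q hq Γ _ _ Q _ _ s X K t h χ hχ θ hθ hov hsta P hdef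
  obtain ⟨hKX, hn, -, -, -, -⟩ := hP0 q hq Γ Q s X K t h
  have hℓ : ℓ.Prime := Fact.out
  have hk := hB1 F π hπ Γ K θ hθ
  have hh := hB1 F π hπ Γ X χ hχ
  have hsp := hSP F π hπ ℓ q hq Γ Q s X K t h χ hχ θ hθ hov hsta
  obtain ⟨hPp, hPK, ⟨x, hxK, hx1, hx2, hx3⟩, hPmax⟩ := hdef
  -- step 1: a class of `K` for both
  obtain ⟨y, hyK, hyX, hyk, hPy, hPi⟩ : ∃ y ∈ K, lam π χ (csum F (cls X y)) ≠ 0 ∧
      lam π θ (csum F (cls K y)) ≠ 0 ∧ P ≤ Subgroup.centralizer {y} ∧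
      ¬ ℓ ∣ P.relIndex (Subgroup.centralizer {y} ⊓ K) := by
    have hxSD : x ∈ SD ℓ K (conjs X P) := by
      have h1 := mem_SD_of_sylow (N := K) hPp hPK hxK hx2 hx3
      refine ⟨h1.1, fun R hR hRN hRc => ?_⟩
      obtain ⟨D, ⟨u, hu, hD⟩, hRD⟩ := h1.2 R hR hRN hRc
      exact ⟨D, ⟨u, hKX hu, hD⟩, hRD⟩
    have hcs := AMc.H88.conjs_stable X P
    obtain ⟨w, hw, hwS, hwne⟩ := hC4 F ℓ Γ K X hKX hn (conjs X P) hcs (lam π θ) hk
      (csum F (cls K x)) (csum_cls_mem_self hxK) (by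
        intro g hg
        rw [coeff_csum] at hg
        have hg' : g ∈ cls K x := by
          by_contra h
          exact hg (if_neg h)
        obtain ⟨m, hm, rfl⟩ := mem_cls.1 hg'
        exact SD_conj (nor_iff hn (hKX hm)) (hcs m (hKX hm)) hxSD) hx1
    have hwχ : lam π χ w ≠ 0 := by
      rw [hB4 F π hπ Γ K X hKX hn χ hχ θ hθ hov w hw]
      exact hwne
    obtain ⟨y, hyK, hyw, hyX⟩ := hh.exists_cls hKX le_rfl hn hw hwχ
    have hySD := hwS y hyw
    have hyk : lam π θ (csum F (cls K y)) ≠ 0 := by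
      intro h0
      apply hyX
      rw [hsp y hyK, h0, mul_zero]
    obtain ⟨u, hu, hud⟩ := hPmax y hyK hyk
    have e0 : u⁻¹ * y * u ∈ cls K y := mem_cls.2 ⟨u⁻¹, K.inv_mem hu, by group⟩
    have e1 : u⁻¹ * y * u ∈ cls X y := mem_cls.2 ⟨u⁻¹, X.inv_mem (hKX hu), by group⟩
    have hy'K : u⁻¹ * y * u ∈ K := cls_subset_self hyK _ e0
    have hy'SD : u⁻¹ * y * u ∈ SD ℓ K (conjs X P) := by
      have hi : u⁻¹ ∈ X := X.inv_mem (hKX hu)
      have := SD_conj (nor_iff hn hi) (hcs u⁻¹ hi) hySD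
      rwa [inv_inv] at this
    have hPc : P ≤ Subgroup.centralizer {u⁻¹ * y * u} := by
      intro d hd
      have h1 := hud d hd
      rw [Subgroup.mem_centralizer_singleton_iff] at h1 ⊢
      have e2 : d * (u⁻¹ * y * u) = u⁻¹ * ((u * d * u⁻¹) * y) * u := by group
      rw [e2, h1]
      group
    refine ⟨u⁻¹ * y * u, hy'K, ?_, ?_, hPc, ?_⟩
    · rw [cls_eq_of_mem e1]; exact hyX
    · rw [cls_eq_of_mem e0]; exact hyk
    · obtain ⟨E, hPE, hEC, hE, hEi⟩ := ext_sylow hPp (le_inf hPc hPK)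
      obtain ⟨D, ⟨v, _, hD⟩, hED⟩ := hy'SD.2 E hE (hEC.trans inf_le_right)
        (hEC.trans inf_le_left)
      have h1 : Nat.card E ≤ Nat.card P := by
        refine (Nat.card_le_card_of_injective _ (Subgroup.inclusion_injective hED)).trans ?_
        rw [hD, H25.AM.card_map_conj]
      rw [Subgroup.eq_of_le_of_card_ge hPE h1]
      exact hEi
  have hPX : P ≤ X := hPK.trans hKX
  -- step 2: a defect group of the block above
  obtain ⟨E0, hE0⟩ := hC3 F ℓ Γ X (lam π χ) hh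
  obtain ⟨y0, hy0, hy0X, hE0y, hE0i, hE0j⟩ := hF0 F ℓ Γ Q s X E0 (lam π χ) hh hE0
  rw [← h.eq] at hy0
  have hE0p := hE0.1
  have hE0X := hE0.2.1
  have hy0k : lam π θ (csum F (cls K y0)) ≠ 0 := by
    intro h0
    apply hy0X
    rw [hsp y0 hy0, h0, mul_zero]
  obtain ⟨u0, hu0, hu0d⟩ := hPmax y0 hy0 hy0k
  obtain ⟨u1, hu1, hu1d⟩ := hE0.2.2.2 y (hKX hyK) hyX
  have hP' := map_conj_le hu0 hPK hu0d
  have hE0' := map_conj_le hu1 hE0X hu1d
  -- the main reduction
  have key : ∀ E : Subgroup Γ, IsPGroup ℓ E → E ≤ Subgroup.centralizer {y} ⊓ X →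
      ¬ ℓ ∣ E.relIndex (Subgroup.centralizer {y} ⊓ X) → Nat.card E ≤ Nat.card E0 →
      DefH ℓ X (lam π χ) E := by
    intro E hE hEC hEi hcard
    obtain ⟨c, hc, hcE⟩ := conj_of_card (hE0p.map _) hE0' hE hEC hEi
      (by rw [H25.AM.card_map_conj]; exact hcard)
    have h1 := AMc.H77.DefH_conj (AMc.H77.DefH_conj hE0 hu1) hc.2
    rwa [hcE] at h1
  have hKC : ∀ z : Γ, (Subgroup.centralizer {z} ⊓ K).relIndex (Subgroup.centralizer {z} ⊓ X) =
      K.relIndex (Subgroup.centralizer {z} ⊓ X) := by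
    intro z
    rw [← Subgroup.inf_relIndex_right K (Subgroup.centralizer {z} ⊓ X)]
    congr 1
    ext g
    simp only [Subgroup.mem_inf]
    constructor
    · rintro ⟨h1, h2⟩
      exact ⟨h2, h1, hKX h2⟩
    · rintro ⟨h1, h2, -⟩
      exact ⟨h2, h1⟩
  refine ⟨?_, ?_⟩
  · intro hqℓ
    refine key P hPp (le_inf hPy hPX) ?_ ?_
    · rw [← Subgroup.relIndex_mul_relIndex P (Subgroup.centralizer {y} ⊓ K)
        (Subgroup.centralizer {y} ⊓ X) (le_inf hPy hPK) (inf_le_inf_left _ hKX), hKC]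
      rcases relIndex_PI hq h (C := Subgroup.centralizer {y} ⊓ X) inf_le_right with h1 | h1
      · rw [h1, mul_one]; exact hPi
      · rw [h1]
        intro hd
        rcases (Nat.Prime.dvd_mul hℓ).1 hd with h2 | h2
        · exact hPi h2
        · exact hqℓ ((Nat.prime_dvd_prime_iff_eq hℓ hq).1 h2).symm
    · rw [← H25.AM.card_map_conj P u0]
      exact card_le_sylow (hPp.map _) (hP'.trans (inf_le_inf_left _ hKX)) hE0p
        (le_inf hE0y hE0X) hE0i
  · intro hqℓ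
    subst hqℓ
    -- centralisers are not contained in `K`
    have hnot : ∀ z ∈ K, lam π χ (csum F (cls X z)) ≠ 0 →
        ¬ Subgroup.centralizer {z} ⊓ X ≤ K := by
      intro z hz hne hle
      apply hne
      rw [hsp z hz, if_pos hle, CharP.cast_eq_zero, zero_mul]
    -- Sylow subgroups of the centralisers are not contained in `K`
    have hnot2 : ∀ z ∈ K, lam π χ (csum F (cls X z)) ≠ 0 → ∀ E : Subgroup Γ,
        E ≤ Subgroup.centralizer {z} ⊓ X →
        ¬ q ∣ E.relIndex (Subgroup.centralizer {z} ⊓ X) → K.relIndex E = q := by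
      intro z hz hne E hEC hEi
      rcases relIndex_PI hq h (hEC.trans inf_le_right) with h1 | h1
      · exfalso
        rw [Subgroup.relIndex_eq_one] at h1
        apply hEi
        rw [← Subgroup.relIndex_mul_relIndex E (Subgroup.centralizer {z} ⊓ K)
          (Subgroup.centralizer {z} ⊓ X) (le_inf (hEC.trans inf_le_left) h1)
          (inf_le_inf_left _ hKX), hKC]
        rcases relIndex_PI hq h (C := Subgroup.centralizer {z} ⊓ X) inf_le_right with h2 | h2
        · exact absurd (Subgroup.relIndex_eq_one.1 h2) (hnot z hz hne)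
        · rw [h2]
          exact Dvd.intro_left _ rfl
      · exact h1
    obtain ⟨E, hPE, hEC, hE, hEi⟩ := ext_sylow hPp (le_inf hPy hPX)
    have h1 := hnot2 y hyK hyX E hEC hEi
    have h2 := hnot2 y0 hy0 hy0X E0 (le_inf hE0y hE0X) hE0i
    have hEK : E ⊓ K = P := by
      refine eq_of_sylow_le (hE.to_le inf_le_left) (C := Subgroup.centralizer {y} ⊓ K) ?_ hPp
        (le_inf hPE hPK) hPi
      exact le_inf (inf_le_left.trans (hEC.trans inf_le_left)) inf_le_right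
    have hPE' : P.relIndex E = q := by
      rw [← hEK, Subgroup.inf_relIndex_left, h1]
    have hcard : ∀ {A B : Subgroup Γ}, A ≤ B → Nat.card A * A.relIndex B = Nat.card B := by
      intro A B hAB
      have := Subgroup.card_mul_index (A.subgroupOf B)
      rw [Nat.card_congr (Subgroup.subgroupOfEquivOfLe hAB).toEquiv] at this
      exact this
    refine ⟨E, key E hE hEC hEi ?_, hEK, hPE'⟩
    rw [← hcard hPE, hPE', ← hcard (inf_le_left : E0 ⊓ K ≤ E0), Subgroup.inf_relIndex_left, h2]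
    refine Nat.mul_le_mul_right _ ?_
    rw [← H25.AM.card_map_conj P u0]
    have e3 : E0 ⊓ s.ker = E0 ⊓ K := by
      rw [h.eq, ← inf_assoc, inf_eq_left.2 hE0X]
    rw [e3, ← h.eq] at hE0j
    exact card_le_sylow (hPp.map _) hP' (hE0p.to_le inf_le_left)
      (le_inf (inf_le_left.trans hE0y) inf_le_right) hE0j

end Pool.Agent.H76.EA
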