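import Pool.Agent.H76.EA.DX

/-!
# MP_657073_al, module F0: a defect class inside the kernel
-/

open scoped Classical ComplexConjugate

namespace Pool.Agent.H76.EA

open AMc AMe

theorem f0 (hC2 : T_C2) : T_F0 := by
  intro F _ ℓ _ _ Γ _ _ Q _ _ s M E h hh hdef
  obtain ⟨hEp, hEM, ⟨x, hxM, hx1, hx2, hx3⟩, hmax⟩ := hdef
  have nM := nor_self M
  have hcs := AMc.H88.conjs_stable M E
  have hxSD : x ∈ SD ℓ M (conjs M E) := mem_SD_of_sylow hEp hEM hxM hx2 hx3
  have hc := csum_cls_mem_self (F := F) hxM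
  set c : MonoidAlgebra F Γ := csum F (cls M x) with hcdef
  have hccls : ∀ g, c.coeff g ≠ 0 → g ∈ cls M x := by
    intro g hg
    rw [hcdef, coeff_csum] at hg
    by_contra h
    exact hg (if_neg h)
  have hcSD : ∀ g, c.coeff g ≠ 0 → g ∈ SD ℓ M (conjs M E) := by
    intro g hg
    obtain ⟨m, hm, rfl⟩ := mem_cls.1 (hccls g hg)
    exact SD_conj (nor_iff nM hm) (hcs m hm) hxSD
  have hcs' : ∀ n : ℕ, ∀ g, (c ^ n).coeff g ≠ 0 → s g = s x ^ n := by
    intro n
    induction n with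
    | zero =>
      intro g hg
      rw [pow_zero, MonoidAlgebra.one_def, MonoidAlgebra.coeff_single, Finsupp.single_apply] at hg
      have : 1 = g := by
        by_contra h
        exact hg (if_neg h)
      rw [← this, map_one, pow_zero]
    | succ n ih =>
      intro g hg
      rw [pow_succ, coeff_mul_group] at hg
      obtain ⟨a, -, ha⟩ := Finset.exists_ne_zero_of_sum_ne_zero hg
      have h1 := ih a (left_ne_zero_of_mul ha)
      obtain ⟨m, hm, he⟩ := mem_cls.1 (hccls _ (right_ne_zero_of_mul ha))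
      have h2 : s (a⁻¹ * g) = s x := by rw [he, s_conj]
      have h3 : g = a * (a⁻¹ * g) := by group
      rw [h3, map_mul, h1, h2, pow_succ]
  have hn : 0 < Nat.card Q := Nat.card_pos
  obtain ⟨n, hn'⟩ := Nat.exists_eq_succ_of_ne_zero hn.ne'
  have hpm : c ^ (n + 1) ∈ ZA F M M := (ZA F M M).pow_mem hc _
  have hne : h (c ^ (n + 1)) ≠ 0 := by
    rw [hh.map_pow hc]
    exact pow_ne_zero _ hx1
  obtain ⟨y, hyM, hyc, hy1⟩ := hh.exists_cls le_rfl le_rfl nM hpm hne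
  have hyker : s y = 1 := by
    rw [hcs' _ y hyc]
    have : n + 1 = Nat.card Q := hn'.symm
    rw [this, pow_card_eq_one']
  have hySD : y ∈ SD ℓ M (conjs M E) := by
    rw [pow_succ'] at hyc
    exact hC2 F ℓ Γ M (conjs M E) c hc (c ^ n) ((ZA F M M).pow_mem hc n) hcSD y hyc
  obtain ⟨u, hu, hud⟩ := hmax y hyM hy1
  have e0 : u⁻¹ * y * u ∈ cls M y := mem_cls.2 ⟨u⁻¹, M.inv_mem hu, by group⟩
  have hy'M : u⁻¹ * y * u ∈ M := cls_subset_self hyM _ e0
  have hy'SD : u⁻¹ * y * u ∈ SD ℓ M (conjs M E) := by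
    have hi : u⁻¹ ∈ M := M.inv_mem hu
    have := SD_conj (nor_iff nM hi) (hcs u⁻¹ hi) hySD
    rwa [inv_inv] at this
  have hEc : E ≤ Subgroup.centralizer {u⁻¹ * y * u} := by
    intro d hd
    have h1 := hud d hd
    rw [Subgroup.mem_centralizer_singleton_iff] at h1 ⊢
    have e2 : d * (u⁻¹ * y * u) = u⁻¹ * ((u * d * u⁻¹) * y) * u := by group
    rw [e2, h1]
    group
  have hEi : ¬ ℓ ∣ E.relIndex (Subgroup.centralizer {u⁻¹ * y * u} ⊓ M) := by
    obtain ⟨E1, hEE, hEC, hE1, hEi⟩ := ext_sylow hEp (le_inf hEc hEM)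
    obtain ⟨D, ⟨v, _, hD⟩, hED⟩ := hy'SD.2 E1 hE1 (hEC.trans inf_le_right)
      (hEC.trans inf_le_left)
    have h1 : Nat.card E1 ≤ Nat.card E := by
      refine (Nat.card_le_card_of_injective _ (Subgroup.inclusion_injective hED)).trans ?_
      rw [hD, H25.AM.card_map_conj]
    rw [Subgroup.eq_of_le_of_card_ge hEE h1]
    exact hEi
  refine ⟨u⁻¹ * y * u, ⟨hy'M, ?_⟩, ?_, hEc, hEi, ?_⟩
  · show s (u⁻¹ * y * u) = 1
    rw [map_mul, map_mul, map_inv, hyker, mul_one, inv_mul_cancel]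
  · rw [cls_eq_of_mem e0]; exact hy1
  · obtain ⟨k, _, hk⟩ := AMc.H88.relIndex_ker_dvd s
      (le_inf hEc hEM : E ≤ Subgroup.centralizer {u⁻¹ * y * u} ⊓ M)
    intro hd
    apply hEi
    rw [hk, inf_assoc]
    exact Dvd.dvd.mul_right hd _

end Pool.Agent.H76.EA
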