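import Pool.Agent.H77.EA.Targets

/-!
# MP_657073_al, module P0: elementary facts on `PI`
-/

open scoped Classical ComplexConjugate

namespace Pool.Agent.H76.EA

open AMc AMe

theorem p0 : T_P0 := by
  intro q hq Γ _ _ Q _ s X K t h
  have hKX : K ≤ X := by rw [h.eq]; exact inf_le_left
  have hK : ∀ g, g ∈ K ↔ g ∈ X ∧ s g = 1 := by
    intro g; rw [h.eq, Subgroup.mem_inf, MonoidHom.mem_ker]
  have hpow : ∀ c : ℕ, t ^ c ∈ K ↔ q ∣ c := by
    intro c
    rw [hK, map_pow, ← orderOf_dvd_iff_pow_eq_one, h.ord]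
    exact ⟨fun h => h.2, fun h' => ⟨X.pow_mem h.mem c, h'⟩⟩
  have hdec : ∀ x ∈ X, ∃ c < q, ∃ k ∈ K, x = t ^ c * k := by
    intro x hx
    obtain ⟨c, hc⟩ := h.gen x hx
    refine ⟨c % q, Nat.mod_lt _ hq.pos, (t ^ (c % q))⁻¹ * x, ?_, by group⟩
    rw [hK]
    refine ⟨X.mul_mem (X.inv_mem (X.pow_mem h.mem _)) hx, ?_⟩
    rw [map_mul, map_inv, map_pow, hc, ← h.ord, pow_mod_orderOf, inv_mul_cancel]
  refine ⟨hKX, ?_, ?_, hdec, hpow, ?_⟩
  · intro u hu g hg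
    rw [hK] at hg ⊢
    refine ⟨X.mul_mem (X.mul_mem hu hg.1) (X.inv_mem hu), ?_⟩
    rw [map_mul, map_mul, hg.2, map_inv, mul_one, mul_inv_cancel]
  · have h1 : K.subgroupOf X = (s.comp X.subtype).ker := by
      ext g
      rw [Subgroup.mem_subgroupOf, hK, MonoidHom.mem_ker]
      exact ⟨fun h => h.2, fun h => ⟨g.2, h⟩⟩
    have h2 : (s.comp X.subtype).range = Subgroup.zpowers (s t) := by
      ext y
      rw [MonoidHom.mem_range, Subgroup.mem_zpowers_iff]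
      constructor
      · rintro ⟨x, rfl⟩
        obtain ⟨c, hc⟩ := h.gen x x.2
        exact ⟨c, by rw [zpow_natCast, ← hc]; rfl⟩
      · rintro ⟨c, rfl⟩
        exact ⟨⟨t ^ c, X.zpow_mem h.mem c⟩, by simp⟩
    show (K.subgroupOf X).index = q
    rw [h1, Subgroup.index_ker, h2, Nat.card_zpowers, h.ord]
  · intro P _ htP
    refine ⟨?_, ⟨h.mem, htP⟩, fun x hx => h.gen x hx.1, h.ord⟩
    rw [h.eq]
    ext g
    simp only [Subgroup.mem_inf]
    tauto

end Pool.Agent.H76.EA
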