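import Pool.Agent.H77.EA.Targets
import Pool.Agent.H3.AM.Basic

/-!
# MP_657073_al, module SP: the central character above an invariant block
-/

open scoped Classical ComplexConjugate

namespace Pool.Agent.H76.EA

open AMc AMe

theorem sp (hP0 : T_P0) (hB1 : T_B1) (hB4 : T_B4) (hB5 : T_B5) : T_SP := by
  intro F _ π hπ ℓ _ _ q hq Γ _ _ Q _ s X K t h χ hχ θ hθ hov hsta y hy
  obtain ⟨hKX, hn, -, hdec, hpow, -⟩ := hP0 q hq Γ Q s X K t h
  have hK : ∀ g, g ∈ K ↔ g ∈ X ∧ s g = 1 := by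
    intro g; rw [h.eq, Subgroup.mem_inf, MonoidHom.mem_ker]
  have hc := hB1 F π hπ Γ K θ hθ
  have hz := csum_cls_mem (F := F) hn hy
  rw [hB4 F π hπ Γ K X hKX hn χ hχ θ hθ hov _ hz]
  by_cases hC : Subgroup.centralizer {y} ⊓ X ≤ K
  · rw [if_pos hC]
    -- the classes `t ^ c (cls K y) t ^ -c`
    let S : ℕ → Finset Γ := fun c => (cls K y).image (fun g => t ^ c * g * (t ^ c)⁻¹)
    have hSX : cls X y = (Finset.range q).biUnion S := by
      ext g
      rw [Finset.mem_biUnion, mem_cls]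
      constructor
      · rintro ⟨u, hu, rfl⟩
        obtain ⟨c, hcq, k, hk, rfl⟩ := hdec u hu
        refine ⟨c, Finset.mem_range.2 hcq, Finset.mem_image.2 ⟨k * y * k⁻¹,
          mem_cls.2 ⟨k, hk, rfl⟩, ?_⟩⟩
        group
      · rintro ⟨c, -, hg⟩
        obtain ⟨g', hg', rfl⟩ := Finset.mem_image.1 hg
        obtain ⟨k, hk, rfl⟩ := mem_cls.1 hg'
        exact ⟨t ^ c * k, X.mul_mem (X.pow_mem h.mem c) (hKX hk), by group⟩
    have hdis : Set.PairwiseDisjoint (Finset.range q : Set ℕ) S := by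
      intro c hc c' hc' hne
      rw [Function.onFun, Finset.disjoint_left]
      intro g hg hg'
      obtain ⟨g1, hg1, rfl⟩ := Finset.mem_image.1 hg
      obtain ⟨k, hk, rfl⟩ := mem_cls.1 hg1
      obtain ⟨g2, hg2, he⟩ := Finset.mem_image.1 hg'
      obtain ⟨k', hk', rfl⟩ := mem_cls.1 hg2
      apply hne
      have hw : (t ^ c' * k')⁻¹ * (t ^ c * k) ∈ Subgroup.centralizer {y} ⊓ X := by
        refine ⟨?_, X.mul_mem (X.inv_mem (X.mul_mem (X.pow_mem h.mem _) (hKX hk')))
          (X.mul_mem (X.pow_mem h.mem _) (hKX hk))⟩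
        show _ ∈ Subgroup.centralizer {y}
        rw [Subgroup.mem_centralizer_singleton_iff]
        have e1 : (t ^ c' * k')⁻¹ * (t ^ c * k) * y =
            (t ^ c' * k')⁻¹ * (t ^ c * (k * y * k⁻¹) * (t ^ c)⁻¹) * (t ^ c * k) := by group
        rw [e1, ← he]
        group
      have h1 := ((hK _).1 (hC hw)).2
      have h2 := ((hK _).1 hk).2
      have h3 := ((hK _).1 hk').2
      rw [map_mul, map_inv, map_mul, map_mul, h2, h3, mul_one, mul_one, map_pow, map_pow,
        inv_mul_eq_one, pow_inj_mod, h.ord, Nat.mod_eq_of_lt (Finset.mem_range.1 hc'),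
        Nat.mod_eq_of_lt (Finset.mem_range.1 hc)] at h1
      exact h1.symm
    have hyK := csum_cls_mem_self (F := F) hy
    have hSc : ∀ c, csum F (S c) = cjA (t ^ c)⁻¹ (csum F (cls K y)) := by
      intro c
      rw [cjA_csum, inv_inv]
    have hSm : ∀ c, csum F (S c) ∈ ZA F K K := by
      intro c
      rw [hSc]
      have hi : (t ^ c)⁻¹ ∈ X := X.inv_mem (X.pow_mem h.mem c)
      exact cjA_mem (nor_iff hn hi) (fun g hg => hn _ hi g hg) hyK
    have hSl : ∀ c, lam π θ (csum F (S c)) = lam π θ (csum F (cls K y)) := by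
      intro c
      rw [hSc, ← hB5 F π Γ θ (t ^ c)]
      exact hsta (t ^ c) (X.pow_mem h.mem c) _ hyK
    have hsum : csum F (cls X y) = ∑ c ∈ Finset.range q, csum F (S c) := by
      rw [hSX]
      unfold csum
      exact Finset.sum_biUnion hdis
    rw [hsum, hc.map_sum _ _ (fun c _ => hSm c), Finset.sum_congr rfl (fun c _ => hSl c),
      Finset.sum_const, Finset.card_range, nsmul_eq_mul]
  · rw [if_neg hC, one_mul]
    have hcls : cls X y = cls K y := by
      obtain ⟨x0, ⟨hx0c, hx0X⟩, hx0K⟩ := Set.not_subset.1 hC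
      obtain ⟨a, ha⟩ := h.gen x0 hx0X
      have haq : ¬ q ∣ a := by
        intro hd
        apply hx0K
        rw [SetLike.mem_coe, hK]
        refine ⟨hx0X, ?_⟩
        rw [ha, ← orderOf_dvd_iff_pow_eq_one, h.ord]
        exact hd
      obtain ⟨b, -, hb⟩ := Nat.exists_mul_mod_eq_one_of_coprime
        ((Nat.Prime.coprime_iff_not_dvd hq).2 haq).symm hq.one_lt
      have hx0b : s x0 ^ b = s t := by
        rw [ha, ← pow_mul, ← pow_mod_orderOf, h.ord, hb, pow_one]
      ext g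
      rw [mem_cls, mem_cls]
      constructor
      · rintro ⟨u, hu, rfl⟩
        obtain ⟨c, hc⟩ := h.gen u hu
        refine ⟨u * (x0 ^ (b * c))⁻¹, ?_, ?_⟩
        · rw [hK]
          refine ⟨X.mul_mem hu (X.inv_mem (X.pow_mem hx0X _)), ?_⟩
          rw [map_mul, map_inv, map_pow, pow_mul, hx0b, hc, mul_inv_cancel]
        · have h1 : x0 ^ (b * c) ∈ Subgroup.centralizer {y} := Subgroup.pow_mem _ hx0c _
          rw [Subgroup.mem_centralizer_singleton_iff] at h1
          have h2 : (x0 ^ (b * c))⁻¹ * y * (x0 ^ (b * c)) = y := by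
            rw [mul_assoc, ← h1]; group
          calc u * y * u⁻¹ = u * ((x0 ^ (b * c))⁻¹ * y * (x0 ^ (b * c))) * u⁻¹ := by rw [h2]
            _ = u * (x0 ^ (b * c))⁻¹ * y * (u * (x0 ^ (b * c))⁻¹)⁻¹ := by group
      · rintro ⟨u, hu, rfl⟩
        exact ⟨u, hKX hu, rfl⟩
    rw [hcls]

end Pool.Agent.H76.EA
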